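import Pool.Agent.H85.TU.Targets2

/-!
# Row P3 of the board tum_modules: the third prefix
-/

set_option autoImplicit false

namespace Pool.Agent.H12.TU

open Set Pool.Agent.H85.TU

section

variable {C : Type}

lemma p3_lt : ∀ i : Fin 4, i < 2 → i = 0 ∨ i = 1 := by decide

lemma p3_tp5 (z : Str bar (bD (LC C)) ℕ) (u d d' v e : ℕ) :
    tp z (fun i : Fin [true, false, false, true, false].length =>
      ([u, d, d', v, e] : List ℕ).getD i 0) = tp z ![u, d, d', v, e] := by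
  congr 1
  funext i
  fin_cases i <;> rfl

lemma p3_r2 (z : Str bar (bD (LC C)) ℕ) (u d d' v e : ℕ) :
    reidx ![0, 3] (tp z ![u, d, d', v, e]) = tp z ![u, v] := by
  have h : (![u, d, d', v, e] : Fin 5 → ℕ) ∘ (![0, 3] : Fin 2 → Fin 5) = ![u, v] := by
    funext i
    fin_cases i <;> rfl
  rw [← h]
  rfl

lemma p3_r3 (z : Str bar (bD (LC C)) ℕ) (u d d' v e : ℕ) :
    reidx ![0, 3, 4] (tp z ![u, d, d', v, e]) = tp z ![u, v, e] := by
  have h : (![u, d, d', v, e] : Fin 5 → ℕ) ∘ (![0, 3, 4] : Fin 3 → Fin 5) = ![u, v, e] := by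
    funext i
    fin_cases i <;> rfl
  rw [← h]
  rfl

lemma p3_LL (z : Str bar (bD (LC C)) ℕ) {n : ℕ} (w : Fin n → ℕ) (i j : Fin n) :
    LL (tp z w) i j = zl z (w i) (w j) := by
  have h : w ∘ (![i, j] : Fin 2 → Fin n) = ![w i, w j] := by
    funext k
    fin_cases k <;> rfl
  unfold zl
  rw [← h]
  rfl

lemma p3_sent (z : Str bar (bD (LC C)) ℕ) (α : Set (TB C 3)) (β : ℕ → Set (TB C 3))
    (len : C → ℕ) : z ∈ Sent [true, false, false, true, false] (M3 α β len) ↔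
      ∀ u, ∃ d d', ∀ v, ∃ e, tp z ![u, v] ∈ Ga α ∧ tp z ![u, v, e] ∈ Tas β len ∧
        (zl z u d).2.1 = false ∧ eqv (zl z u d) 0 2 ∧ Row (zl z u v) (zl z d v) 0 ∧
        (zl z u d').2.1 = false ∧ eqv (zl z u d') 1 2 ∧ Row (zl z u v) (zl z d' v) 1 := by
  have h1 : z ∈ Sent [true, false, false, true, false] (M3 α β len) ↔
      ∀ u, ∃ d d', ∀ v, ∃ e, tp z (fun i : Fin [true, false, false, true, false].length =>
        ([u, d, d', v, e] : List ℕ).getD i 0) ∈ M3 α β len := Iff.rfl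
  rw [h1]
  refine forall_congr' fun u => exists_congr fun d => exists_congr fun d' =>
    forall_congr' fun v => exists_congr fun e => ?_
  rw [p3_tp5]
  have h2 : tp z ![u, d, d', v, e] ∈ M3 α β len ↔
      (reidx ![0, 3] (tp z ![u, d, d', v, e]) ∈ Ga α ∧
        reidx ![0, 3, 4] (tp z ![u, d, d', v, e]) ∈ Tas β len ∧
        (LL (tp z ![u, d, d', v, e]) 0 1).2.1 = false ∧
        eqv (LL (tp z ![u, d, d', v, e]) 0 1) 0 2 ∧
        Row (LL (tp z ![u, d, d', v, e]) 0 3) (LL (tp z ![u, d, d', v, e]) 1 3) 0 ∧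
        (LL (tp z ![u, d, d', v, e]) 0 2).2.1 = false ∧
        eqv (LL (tp z ![u, d, d', v, e]) 0 2) 1 2 ∧
        Row (LL (tp z ![u, d, d', v, e]) 0 3) (LL (tp z ![u, d, d', v, e]) 2 3) 1) := Iff.rfl
  rw [h2, p3_r2, p3_r3, p3_LL, p3_LL, p3_LL, p3_LL, p3_LL]
  exact Iff.rfl

lemma p3_Rr (z : Str bar (bD (LC C)) ℕ) (u v w : ℕ) :
    tp z ![u, v, w] ∈ (Rr : Set (TB (LC C) 3)) ↔ ∀ i : Fin 4, i < 2 →
      (zl z u v).2.1 = false → eqv (zl z u v) i 2 → Row (zl z u w) (zl z v w) i := by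
  have h2 : tp z ![u, v, w] ∈ (Rr : Set (TB (LC C) 3)) ↔ ∀ i : Fin 4, i < 2 →
      (LL (tp z ![u, v, w]) 0 1).2.1 = false → eqv (LL (tp z ![u, v, w]) 0 1) i 2 →
      Row (LL (tp z ![u, v, w]) 0 2) (LL (tp z ![u, v, w]) 1 2) i := Iff.rfl
  rw [h2, p3_LL, p3_LL, p3_LL]
  exact Iff.rfl

end

theorem pf_P3 (hB3A : T_B3A) (hB3B : T_B3B) : T_P3 := by
  intro C α β len
  ext z
  rw [p3_sent]
  constructor
  · intro h
    have hG : ∀ u v, tp z ![u, v] ∈ Ga α := by
      intro u v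
      obtain ⟨d, d', h1⟩ := h u
      obtain ⟨e, h2⟩ := h1 v
      exact h2.1
    obtain ⟨a1, a2⟩ := hB3A C α z hG
    refine ⟨hG, fun u v w => ?_, fun u v => ?_⟩
    · rw [p3_Rr]
      intro i hi hs he
      obtain ⟨d, d', h1⟩ := h u
      obtain ⟨-, -, -, k1, k2, k3, k4, k5, k6⟩ := h1 v
      obtain ⟨-, -, -, -, -, l3, -, -, l6⟩ := h1 w
      have hv : S0 z v := by
        unfold S0
        rw [← (a1 u v).2]
        exact hs
      have hd : S0 z d := by
        unfold S0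
        rw [← (a1 u d).2]
        exact k1
      have hd' : S0 z d' := by
        unfold S0
        rw [← (a1 u d').2]
        exact k4
      have hi' : i = 0 ∨ i = 1 := p3_lt i hi
      rcases hi' with rfl | rfl
      · have h3 : eqv (zl z d v) 0 2 := by
          unfold eqv
          rw [← (k3 2 le_rfl).2.2]
          exact he
        have h4 : d = v := (a2 d v hd hv).1 h3
        rw [← h4]
        exact l3
      · have h3 : eqv (zl z d' v) 0 2 := by
          unfold eqv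
          rw [← (k6 2 le_rfl).2.2]
          exact he
        have h4 : d' = v := (a2 d' v hd' hv).1 h3
        rw [← h4]
        exact l6
    · obtain ⟨d, d', h1⟩ := h u
      obtain ⟨e, h2⟩ := h1 v
      exact ⟨e, h2.2.1⟩
  · intro hz
    obtain ⟨hG, hR, hT⟩ := hz
    obtain ⟨a1, a2⟩ := hB3A C α z hG
    obtain ⟨-, b2, b3, -, -⟩ := hB3B C α β len z ⟨hG, hR, hT⟩
    intro u
    obtain ⟨d, hd, hde⟩ := b2 u
    obtain ⟨d', hd', hde'⟩ := b3 u
    refine ⟨d, d', fun v => ?_⟩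
    obtain ⟨e, he⟩ := hT u v
    have s1 : (zl z u d).2.1 = false := by
      rw [(a1 u d).2]
      exact hd
    have s2 : (zl z u d').2.1 = false := by
      rw [(a1 u d').2]
      exact hd'
    have r1 := hR u d v
    have r2 := hR u d' v
    rw [p3_Rr] at r1 r2
    exact ⟨e, hG u v, he, s1, hde, r1 0 (by decide) s1 hde, s2, hde', r2 1 (by decide) s2 hde'⟩

end Pool.Agent.H12.TU
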